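import Mathlib

/-!
# Weyl sums over `F_q[T]`: elementary estimates and Laurent series
-/

set_option autoImplicit false

namespace Pool.Agent.Helper88.MW

open Polynomial

/-- coefficients of a product of Laurent series vanish below the sum of the orders -/
theorem coeff_mul_vanish {F : Type} [Field F] (x y : LaurentSeries F) (s t : ℤ)
    (hx : ∀ m : ℤ, m < s → x.coeff m = 0) (hy : ∀ m : ℤ, m < t → y.coeff m = 0) (m : ℤ)
    (hm : m < s + t) : (x * y).coeff m = 0 := by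
  rw [HahnSeries.coeff_mul]
  apply Finset.sum_eq_zero
  rintro ⟨i, k⟩ hik
  rw [Finset.mem_antidiagonal] at hik
  obtain ⟨h1, h2, h3⟩ := hik
  rw [HahnSeries.mem_support] at h1 h2
  have h4 : s ≤ i := by
    by_contra h
    exact h1 (hx i (by omega))
  have h5 : t ≤ k := by
    by_contra h
    exact h2 (hy k (by omega))
  simp only at h3
  omega

/-- the coefficients of a polynomial in the variable `1/T` -/
theorem emb_coeff {F : Type} [Field F] (f : F[X]) (m : ℤ) :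
    (Polynomial.aeval (HahnSeries.single (-1 : ℤ) (1 : F)) f : LaurentSeries F).coeff m =
      ∑ i ∈ Finset.range (f.natDegree + 1), (HahnSeries.single (-(i : ℤ)) (f.coeff i)).coeff m := by
  rw [Polynomial.aeval_eq_sum_range, HahnSeries.coeff_sum]
  apply Finset.sum_congr rfl
  intro i _
  rw [HahnSeries.single_pow, one_pow, Algebra.smul_def]
  have h : algebraMap F (LaurentSeries F) (f.coeff i) = HahnSeries.C (f.coeff i) := by
    change HahnSeries.ofPowerSeries ℤ F (algebraMap F (PowerSeries F) (f.coeff i)) = _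
    exact HahnSeries.ofPowerSeries_C _
  rw [h, HahnSeries.C_apply, HahnSeries.single_mul_single, zero_add, mul_one]
  simp

theorem emb_vanish {F : Type} [Field F] (f : F[X]) (m : ℤ) (hm : m < - (f.natDegree : ℤ)) :
    (Polynomial.aeval (HahnSeries.single (-1 : ℤ) (1 : F)) f : LaurentSeries F).coeff m = 0 := by
  rw [emb_coeff]
  apply Finset.sum_eq_zero
  intro i hi
  rw [Finset.mem_range] at hi
  rw [HahnSeries.coeff_single_of_ne]
  omega

theorem emb_ne {F : Type} [Field F] (f : F[X]) (hf : f ≠ 0) :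
    (Polynomial.aeval (HahnSeries.single (-1 : ℤ) (1 : F)) f : LaurentSeries F) ≠ 0 := by
  intro h
  have h1 : (Polynomial.aeval (HahnSeries.single (-1 : ℤ) (1 : F)) f : LaurentSeries F).coeff
      (- (f.natDegree : ℤ)) = f.leadingCoeff := by
    rw [emb_coeff, Finset.sum_eq_single f.natDegree]
    · rw [HahnSeries.coeff_single_same]
      rfl
    · intro i hi hi'
      rw [HahnSeries.coeff_single_of_ne]
      omega
    · intro h
      exact absurd (Finset.self_mem_range_succ _) h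
  rw [h, HahnSeries.coeff_zero] at h1
  exact hf (leadingCoeff_eq_zero.1 h1.symm)

/-- From `|α - a/g| ≤ |g|⁻²` to `|α g - a| ≤ |g|⁻¹`. -/
theorem approx {F : Type} [Field F] (α : LaurentSeries F) (a g : F[X]) (hg : g ≠ 0)
    (h : ∀ m : ℤ, m < 2 * (g.natDegree : ℤ) →
      (α - Polynomial.aeval (HahnSeries.single (-1 : ℤ) (1 : F)) a /
        Polynomial.aeval (HahnSeries.single (-1 : ℤ) (1 : F)) g).coeff m = 0) (m : ℤ)
    (hm : m < (g.natDegree : ℤ)) :
    (α * Polynomial.aeval (HahnSeries.single (-1 : ℤ) (1 : F)) g -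
      Polynomial.aeval (HahnSeries.single (-1 : ℤ) (1 : F)) a).coeff m = 0 := by
  have h1 : α * Polynomial.aeval (HahnSeries.single (-1 : ℤ) (1 : F)) g -
      Polynomial.aeval (HahnSeries.single (-1 : ℤ) (1 : F)) a =
      (α - Polynomial.aeval (HahnSeries.single (-1 : ℤ) (1 : F)) a /
        Polynomial.aeval (HahnSeries.single (-1 : ℤ) (1 : F)) g) *
        Polynomial.aeval (HahnSeries.single (-1 : ℤ) (1 : F)) g := by
    rw [sub_mul, div_mul_cancel₀ _ (emb_ne g hg)]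
  rw [h1]
  exact coeff_mul_vanish _ _ _ (- (g.natDegree : ℤ)) h (fun m hm => emb_vanish g m hm) m (by omega)

/-- the final estimate -/
theorem bound_real (P : ℕ) (hP : 2 ≤ P) (p e : ℕ) (hp : 2 ≤ p) (ε C0 : ℝ)
    (n d h h' : ℕ) (hdn : d ≤ n) (S : ℝ)
    (hSq : S ^ 2 ≤ ((p ^ e : ℕ) : ℝ) ^ n * (p : ℝ) ^ h) (hh : h ≤ h' + e * (n - d))
    (hh' : (h' : ℝ) ≤ (((P : ℝ) - 1) / ((P : ℝ) + 1) + 2 * ε) * (e * d) + C0) :
    S ≤ (p : ℝ) ^ (C0 / 2) * ((p ^ e : ℕ) : ℝ) ^ n *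
      (((p ^ e : ℕ) : ℝ) ^ d) ^ (ε - 1 / ((P + 1 : ℕ) : ℝ)) := by
  have hp0 : (0 : ℝ) < p := by
    have : 0 < p := by omega
    exact_mod_cast this
  have hp1 : (1 : ℝ) ≤ p := by
    have : 1 ≤ p := by omega
    exact_mod_cast this
  have hPr : (0 : ℝ) < (P : ℝ) + 1 := by positivity
  have h1 : (h : ℝ) ≤ (((P : ℝ) - 1) / ((P : ℝ) + 1) + 2 * ε) * (e * d) + C0 + e * (n - d) := by
    have h2 : (h : ℝ) ≤ h' + e * ((n - d : ℕ) : ℝ) := by exact_mod_cast hh
    rw [Nat.cast_sub hdn] at h2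
    linarith
  have e1 : (((p ^ e : ℕ) : ℝ) ^ n) = (p : ℝ) ^ ((e : ℝ) * n) := by
    push_cast
    rw [← pow_mul, ← Real.rpow_natCast]
    push_cast
    rfl
  have e2 : ((((p ^ e : ℕ) : ℝ) ^ d) ^ (ε - 1 / ((P + 1 : ℕ) : ℝ))) =
      (p : ℝ) ^ ((e : ℝ) * d * (ε - 1 / ((P : ℝ) + 1))) := by
    have e3 : (((p ^ e : ℕ) : ℝ) ^ d) = (p : ℝ) ^ ((e : ℝ) * d) := by
      push_cast
      rw [← pow_mul, ← Real.rpow_natCast]
      push_cast
      rfl
    rw [e3, ← Real.rpow_mul hp0.le]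
    push_cast
    rfl
  rw [e2, e1, ← Real.rpow_add hp0, ← Real.rpow_add hp0]
  refine (abs_le_of_sq_le_sq' ?_ (by positivity)).2
  · refine hSq.trans ?_
    rw [e1, ← Real.rpow_natCast (p : ℝ) h, ← Real.rpow_add hp0, ← Real.rpow_natCast _ 2,
      ← Real.rpow_mul hp0.le]
    apply Real.rpow_le_rpow_of_exponent_le hp1
    have e4 : ((P : ℝ) - 1) / ((P : ℝ) + 1) = 1 - 2 * (1 / ((P : ℝ) + 1)) := by
      field_simp
      ring
    rw [e4] at h1
    push_cast
    nlinarith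

/-- from the strong form to the form of the conjecture -/
theorem weaken (k : ℕ) (hk : 0 < k) (ε q : ℝ) (hε : 0 < ε) (hq : 1 ≤ q) (n d : ℕ) (hdn : d ≤ n)
    (C S : ℝ) (hC : 0 ≤ C) (hS : S ≤ C * q ^ n * (q ^ d) ^ (ε - 1 / (k : ℝ))) :
    S ≤ C * (q ^ n) ^ (1 + ε) * (1 / q ^ d + 1 / q ^ n + q ^ d / (q ^ n) ^ k) ^ (1 / (k : ℝ)) := by
  have hq0 : 0 < q := by linarith
  have hd0 : 0 < q ^ d := by positivity
  have hn0 : 0 < q ^ n := by positivity
  refine hS.trans ?_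
  rw [sub_eq_add_neg, Real.rpow_add hd0, Real.rpow_add hn0, Real.rpow_one]
  have h1 : (q ^ d) ^ (-(1 / (k : ℝ))) ≤
      (1 / q ^ d + 1 / q ^ n + q ^ d / (q ^ n) ^ k) ^ (1 / (k : ℝ)) := by
    rw [Real.rpow_neg hd0.le, ← Real.inv_rpow hd0.le]
    apply Real.rpow_le_rpow (by positivity)
    · have h2 : 0 ≤ 1 / q ^ n := by positivity
      have h3 : 0 ≤ q ^ d / (q ^ n) ^ k := by positivity
      rw [inv_eq_one_div]
      linarith
    · positivity
  have h2 : (q ^ d) ^ ε ≤ (q ^ n) ^ ε :=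
    Real.rpow_le_rpow hd0.le (pow_le_pow_right₀ hq hdn) hε.le
  calc C * q ^ n * ((q ^ d) ^ ε * (q ^ d) ^ (-(1 / (k : ℝ))))
      ≤ C * q ^ n * ((q ^ n) ^ ε *
        (1 / q ^ d + 1 / q ^ n + q ^ d / (q ^ n) ^ k) ^ (1 / (k : ℝ))) := by
        apply mul_le_mul_of_nonneg_left _ (by positivity)
        exact mul_le_mul h2 h1 (by positivity) (by positivity)
    _ = _ := by ring

end Pool.Agent.Helper88.MW
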