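import Pool.Agent.Helper88.MW.Main
import Pool.Agent.Helper88.MW.Bound
import Pool.Agent.Helper91.MW.FIN
import Pool.Agent.Helper6.MW.ZG
import Pool.Agent.Helper29.MW.EXP
import Pool.Agent.Helper25.MW.MON
import Pool.Agent.Helper25.MW.CHR
import Pool.Agent.Helper54.MW.RAT

/-!
# Weyl sums over `F_q[T]`: assembly
-/

set_option autoImplicit false

namespace Pool.Agent.Helper88.MW

open Polynomial Module

theorem assembly (p : ℕ) [Fact p.Prime] (F : Type) [Field F] [Fintype F] [CharP F p] (j : ℕ)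
    (hj : 1 ≤ j) (ψ : AddChar F ℂ) (hψ : ψ ≠ 1) (ε : ℝ) (hε : 0 < ε) :
    ∃ C : ℝ, 0 ≤ C ∧ ∀ (n m : ℕ) (α : LaurentSeries F) (ξ : ℕ → LaurentSeries F) (a g : F[X]),
      IsCoprime a g → g ≠ 0 → g.natDegree ≤ n →
      (∀ m : ℤ, m < 2 * (g.natDegree : ℤ) →
        (α - Polynomial.aeval (HahnSeries.single (-1 : ℤ) (1 : F)) a /
          Polynomial.aeval (HahnSeries.single (-1 : ℤ) (1 : F)) g).coeff m = 0) →
      ‖∑ c : Fin n → F, ψ ((α * Polynomial.aeval (HahnSeries.single (-1 : ℤ) (1 : F))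
            (∑ i, Polynomial.C (c i) * X ^ (i : ℕ)) ^ (p ^ j + 1) +
          ∑ i ∈ Finset.range m, ξ i * Polynomial.aeval (HahnSeries.single (-1 : ℤ) (1 : F))
            (∑ i, Polynomial.C (c i) * X ^ (i : ℕ)) ^ (p ^ i)).coeff 1)‖ ≤
        C * (Fintype.card F : ℝ) ^ n *
          ((Fintype.card F : ℝ) ^ g.natDegree) ^ (ε - 1 / ((p ^ j + 1 : ℕ) : ℝ)) := by
  let _ : Algebra (ZMod p) F := ZMod.algebra F p
  have hp : 2 ≤ p := (Fact.out : p.Prime).two_le
  have hP : 2 ≤ p ^ j := by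
    calc 2 ≤ p := hp
      _ = p ^ 1 := (pow_one p).symm
      _ ≤ p ^ j := Nat.pow_le_pow_right (Fact.out : p.Prime).pos hj
  obtain ⟨τ, hτ, hψτ⟩ := Pool.Agent.Helper25.MW.chr (p := p) ψ hψ
  obtain ⟨C0, hC0⟩ := Pool.Agent.Helper91.MW.fin (p := p) (F := F) j hj
    Pool.Agent.Helper54.MW.pb_fin Pool.Agent.Helper54.MW.pb_finrank
    (fun β V i => Pool.Agent.Helper29.MW.la_iso β V i)
    (fun β V _ i => Pool.Agent.Helper49.MW.la_dim β V i)
    (fun i => Pool.Agent.Helper6.MW.zg j hj i) (fun i => main j hj i) (2 * ε) (by positivity)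
  refine ⟨(p : ℝ) ^ (C0 / 2), by positivity, fun n m α ξ a g hag hg hgn hα => ?_⟩
  -- the functionals
  let la : F[X] →+ ZMod p :=
    { toFun := fun f => τ ((α * Pool.Agent.Helper54.MW.emb F f).coeff 1)
      map_zero' := by simp
      map_add' := fun f f' => by rw [map_add, mul_add, HahnSeries.coeff_add, map_add] }
  let l : F[X] →ₗ[ZMod p] ZMod p := la.toZModLinearMap p
  have hl : ∀ f, l f = τ ((α * Pool.Agent.Helper54.MW.emb F f).coeff 1) := fun f => rfl
  have hch : CharP F[X] p := charP_poly (p := p) (F := F)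
  let χ : F[X] →+ ZMod p :=
    { toFun := fun f => τ ((∑ i ∈ Finset.range m, ξ i * Pool.Agent.Helper54.MW.emb F (f ^ (p ^ i))).coeff 1)
      map_zero' := by
        have h : ∀ i, (0 : F[X]) ^ (p ^ i) = 0 := fun i => zero_pow (pow_pos (Fact.out : p.Prime).pos i).ne'
        simp [h]
      map_add' := fun f f' => by
        rw [← map_add, ← HahnSeries.coeff_add, ← Finset.sum_add_distrib]
        congr 2
        apply Finset.sum_congr rfl
        intro i _
        rw [add_pow_char_pow, map_add, mul_add] }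
  have hχ : ∀ f, χ f = τ ((∑ i ∈ Finset.range m,
      ξ i * Pool.Agent.Helper54.MW.emb F (f ^ (p ^ i))).coeff 1) := fun f => rfl
  have hMi : Mi l g.natDegree := Pool.Agent.Helper54.MW.rat τ hτ α a g hg hag (approx α a g hg hα) l hl
  have hexp := Pool.Agent.Helper29.MW.exp j n l χ
  have hmon := Pool.Agent.Helper25.MW.mon j l hgn
  have hfin := hC0 l g.natDegree hMi
  have hsum : (∑ c : Fin n → F, ψ ((α * Polynomial.aeval (HahnSeries.single (-1 : ℤ) (1 : F))
            (∑ i, Polynomial.C (c i) * X ^ (i : ℕ)) ^ (p ^ j + 1) +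
          ∑ i ∈ Finset.range m, ξ i * Polynomial.aeval (HahnSeries.single (-1 : ℤ) (1 : F))
            (∑ i, Polynomial.C (c i) * X ^ (i : ℕ)) ^ (p ^ i)).coeff 1)) =
      ∑ c : Fin n → F, ZMod.stdAddChar (l (Pool.Agent.Helper29.MW.pol c ^ (p ^ j + 1)) + χ (Pool.Agent.Helper29.MW.pol c)) := by
    apply Finset.sum_congr rfl
    intro c _
    rw [hψτ, hl, hχ, ← map_add, ← HahnSeries.coeff_add, map_pow]
    simp only [map_pow]
    rfl
  have hcard : Fintype.card F = p ^ finrank (ZMod p) F := by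
    have h := Module.card_eq_pow_finrank (K := ZMod p) (V := F)
    rwa [ZMod.card] at h
  rw [hsum]
  have h := bound_real (p ^ j) hP p (finrank (ZMod p) F) hp ε C0 n g.natDegree
    (finrank (ZMod p) (H (bet j l) (Vd p F n))) (finrank (ZMod p) (H (bet j l) (Vd p F g.natDegree)))
    hgn _ (by rw [← hcard]; exact hexp) hmon (by push_cast; exact hfin)
  rw [← hcard] at h
  exact h

end Pool.Agent.Helper88.MW
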