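import Mathlib

/-!
# Weyl sums over `F_q[T]` with exponent `p ^ j + 1`: definitions
-/

set_option autoImplicit false

namespace Pool.Agent.Helper88.MW

open Polynomial Module

section lin

variable {K : Type} [Field K] {E : Type} [AddCommGroup E] [Module K E]

/-- `X` is contained in `Y` up to dimension `C`. -/
def Ap (C : ℕ) (X Y : Submodule K E) : Prop :=
  ∃ D : Submodule K E, FiniteDimensional K D ∧ finrank K D ≤ C ∧ X ≤ Y ⊔ D

/-- `x ↦ β x` restricted to `V`. -/
def aL (β : E →ₗ[K] E →ₗ[K] K) (V : Submodule K E) : E →ₗ[K] V →ₗ[K] K := β.compl₂ V.subtype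

/-- `y ↦ β · y` restricted to `V`. -/
def aR (β : E →ₗ[K] E →ₗ[K] K) (V : Submodule K E) : E →ₗ[K] V →ₗ[K] K :=
  β.flip.compl₂ V.subtype

/-- The increasing sequence of isotropic subspaces. -/
def A (β : E →ₗ[K] E →ₗ[K] K) (V : Submodule K E) : ℕ → Submodule K E
  | 0 => ⊥
  | (i + 1) => V ⊓ ((A β V i).map (aL β V)).comap (aR β V)

/-- The radical of the symmetrized form on `V`. -/
def H (β : E →ₗ[K] E →ₗ[K] K) (V : Submodule K E) : Submodule K E :=
  V ⊓ LinearMap.ker (aL β V + aR β V)

/-- The left kernel on `V`. -/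
def Z (β : E →ₗ[K] E →ₗ[K] K) (V : Submodule K E) : Submodule K E :=
  V ⊓ LinearMap.ker (aL β V)

/-- The orthogonal complement in `V` for the symmetrized form. -/
def O (β : E →ₗ[K] E →ₗ[K] K) (V W : Submodule K E) : Submodule K E where
  carrier := {v | v ∈ V ∧ ∀ w ∈ W, β w v + β v w = 0}
  add_mem' := by
    rintro a b ⟨ha, ha'⟩ ⟨hb, hb'⟩
    refine ⟨V.add_mem ha hb, fun w hw => ?_⟩
    have h1 := ha' w hw
    have h2 := hb' w hw
    rw [map_add, map_add, LinearMap.add_apply]
    linear_combination h1 + h2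
  zero_mem' := ⟨V.zero_mem, fun w _ => by simp⟩
  smul_mem' := by
    rintro c a ⟨ha, ha'⟩
    refine ⟨V.smul_mem c ha, fun w hw => ?_⟩
    have h1 := ha' w hw
    rw [map_smul, map_smul, LinearMap.smul_apply, ← smul_add, h1, smul_zero]

end lin

section poly

variable (p : ℕ) [Fact p.Prime] (F : Type) [Field F] [Fintype F] [Algebra (ZMod p) F]

/-- The polynomials of degree less than `d`, as a space over the prime field. -/
noncomputable def Vd (d : ℕ) : Submodule (ZMod p) F[X] :=
  (Polynomial.degreeLT F d).restrictScalars (ZMod p)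

variable {p F}

/-- Multiplication by `c`. -/
noncomputable def mu (c : F[X]) : F[X] →ₗ[ZMod p] F[X] := LinearMap.mulLeft (ZMod p) c

lemma pw_smul (j : ℕ) (c : ZMod p) (y : F[X]) : (c • y) ^ (p ^ j) = c • y ^ (p ^ j) := by
  rw [_root_.smul_pow]
  congr 1
  induction j with
  | zero => simp
  | succ j ih => rw [pow_succ, pow_mul, ih, ZMod.pow_card]

/-- The form `β(x, y) = l(x y ^ (p ^ j))`. -/
noncomputable def bet (j : ℕ) (l : F[X] →ₗ[ZMod p] ZMod p) : F[X] →ₗ[ZMod p] F[X] →ₗ[ZMod p] ZMod p :=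
  LinearMap.mk₂ (ZMod p) (fun x y => l (x * y ^ (p ^ j)))
    (fun x x' y => by rw [add_mul, map_add])
    (fun c x y => by rw [smul_mul_assoc, map_smul])
    (fun x y y' => by
      have : CharP F p := charP_of_injective_algebraMap (algebraMap (ZMod p) F).injective p
      rw [add_pow_char_pow, mul_add, map_add])
    (fun c x y => by rw [pw_smul, mul_smul_comm, map_smul])

lemma bet_apply (j : ℕ) (l : F[X] →ₗ[ZMod p] ZMod p) (x y : F[X]) :
    bet j l x y = l (x * y ^ (p ^ j)) := rfl

/-- The functional does not vanish on the multiples of a polynomial of degree less than `d`. -/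
def Mi (l : F[X] →ₗ[ZMod p] ZMod p) (d : ℕ) : Prop :=
  ∀ x ∈ Vd p F d, (∀ f ∈ Vd p F d, l (x * f) = 0) → x = 0

end poly

end Pool.Agent.Helper88.MW
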