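import Pool.Agent.Helper6.MW.ST
import Pool.Agent.Helper29.MW.LA3
import Pool.Agent.Helper49.MW.LA2

/-!
# The main inequality
-/

set_option autoImplicit false
set_option linter.unusedSectionVars false

namespace Pool.Agent.Helper88.MW

open Polynomial Module Pool.Agent.Helper49.MW Pool.Agent.Helper29.MW Pool.Agent.Helper54.MW
  Pool.Agent.Helper6.MW

variable {p : ℕ} [Fact p.Prime] {F : Type} [Field F] [Fintype F] [Algebra (ZMod p) F]

lemma mem_H {K : Type} [Field K] {E : Type} [AddCommGroup E] [Module K E]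
    {β : E →ₗ[K] E →ₗ[K] K} {V : Submodule K E} {h : E} :
    h ∈ H β V ↔ h ∈ V ∧ ∀ v ∈ V, β h v + β v h = 0 := by
  unfold H
  rw [Submodule.mem_inf, LinearMap.mem_ker]
  refine and_congr_right fun _ => ?_
  constructor
  · intro h1 v hv
    have h2 := LinearMap.congr_fun h1 ⟨v, hv⟩
    exact h2
  · intro h1
    ext ⟨v, hv⟩
    exact h1 v hv

lemma mem_O {K : Type} [Field K] {E : Type} [AddCommGroup E] [Module K E]
    {β : E →ₗ[K] E →ₗ[K] K} {V W : Submodule K E} {v : E} :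
    v ∈ O β V W ↔ v ∈ V ∧ ∀ w ∈ W, β w v + β v w = 0 := Iff.rfl

lemma H_le_O {K : Type} [Field K] {E : Type} [AddCommGroup E] [Module K E]
    {β : E →ₗ[K] E →ₗ[K] K} {V : Submodule K E} (i : ℕ) : H β V ≤ O β V (A β V i) := by
  intro h hh
  obtain ⟨h1, h2⟩ := mem_H.1 hh
  refine mem_O.2 ⟨h1, fun w hw => ?_⟩
  rw [add_comm]
  exact h2 w (la_le β V i hw)

lemma mu_apply (c x : F[X]) : mu (p := p) c x = c * x := rfl

/-- `b - b ^ (P ^ 2)` -/
noncomputable def eta (P : ℕ) (b : F[X]) : F[X] := b - b ^ (P ^ 2)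

lemma charP_poly : CharP F[X] p := by
  have : CharP F p := charP_of_injective_algebraMap (algebraMap (ZMod p) F).injective p
  infer_instance

lemma sub_pow_P (j : ℕ) (x y : F[X]) : (x - y) ^ (p ^ j) = x ^ (p ^ j) - y ^ (p ^ j) := by
  have := charP_poly (p := p) (F := F)
  exact sub_pow_char_pow x y j

lemma eta_pow (j : ℕ) (b : F[X]) : (eta (p ^ j) b ^ (p ^ j)) ^ (p ^ j) =
    b ^ ((p ^ j) ^ 2) - (b ^ ((p ^ j) ^ 2)) ^ ((p ^ j) ^ 2) := by
  unfold eta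
  rw [sub_pow_P, sub_pow_P]
  congr 1
  · rw [← pow_mul, pow_two]
  · simp only [← pow_mul]
    congr 1
    ring

/-- Step B. -/
lemma pairing (j : ℕ) (l : F[X] →ₗ[ZMod p] ZMod p) (V : Submodule (ZMod p) F[X]) (b : F[X])
    {h h' : F[X]} (hh : h ∈ H (bet j l) V) (hh' : h' ∈ H (bet j l) V)
    (h1 : b ^ ((p ^ j) ^ 2) * h ∈ V) (h2 : (b ^ ((p ^ j) ^ 2)) ^ (p ^ j) * h' ∈ V) :
    bet j l h (eta (p ^ j) b ^ (p ^ j) * h') = 0 := by
  set w := b ^ ((p ^ j) ^ 2) with hw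
  have e1 : bet j l h (eta (p ^ j) b ^ (p ^ j) * h') =
      bet j l (w * h) h' - bet j l h (w ^ (p ^ j) * h') := by
    rw [bet_apply, bet_apply, bet_apply, mul_pow, eta_pow, ← hw, ← map_sub]
    congr 1
    rw [mul_pow, ← pow_mul w, ← pow_two]
    ring
  have e2 := (mem_H.1 hh').2 _ h1
  have e3 := (mem_H.1 hh).2 _ h2
  have e4 : bet j l (w ^ (p ^ j) * h') h = bet j l h' (w * h) := pb_adj j l w h' h
  rw [e1]
  rw [e4] at e3
  linear_combination e2 - e3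

lemma ap_V (c : F[X]) (d : ℕ) : Ap (finrank (ZMod p) F * c.natDegree) (Vd p F d)
    ((Vd p F d).comap (mu c)) :=
  ap_mono (pb_ap d c.natDegree) le_rfl le_rfl (fun _ hx => pb_mul le_rfl hx)

/-- Step A. -/
lemma ap_H (j i : ℕ) (b : F[X]) (hb : eta (p ^ j) b ≠ 0) : ∃ C : ℕ,
    ∀ (l : F[X] →ₗ[ZMod p] ZMod p) (d : ℕ),
    Ap C (H (bet j l) (Vd p F d)) ((O (bet j l) (Vd p F d) (A (bet j l) (Vd p F d) i)).comap
      (mu (eta (p ^ j) b ^ (p ^ j)))) := by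
  set η := eta (p ^ j) b with hη
  obtain ⟨C1, hC1⟩ := st (p := p) j i ((η ^ (p ^ j)) ^ (p ^ j)) (pow_ne_zero _ (pow_ne_zero _ hb))
  obtain ⟨C2, hC2⟩ := st (p := p) j i η hb
  refine ⟨finrank (ZMod p) F * (η ^ (p ^ j)).natDegree + (C1 + C2), fun l d => ?_⟩
  set β := bet j l with hβ
  set V := Vd p F d with hV
  set W := A β V i with hW
  have h1 : Ap (finrank (ZMod p) F * (η ^ (p ^ j)).natDegree) (H β V)
      (H β V ⊓ V.comap (mu (η ^ (p ^ j)))) := by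
    have h2 := ap_inf (ap_le (C := 0) (le_refl (H β V)))
      (ap_mono (ap_V (p := p) (η ^ (p ^ j)) d) le_rfl
        (show H β V ≤ V from fun x hx => (mem_H.1 hx).1) le_rfl)
    rwa [zero_add] at h2
  refine ap_trans h1 ?_
  obtain ⟨D, hD1, hD2, hD3⟩ := ap_inf (hC1 l d) (hC2 l d)
  refine ap_orth _ D hD2 (LinearMap.mk₂ (ZMod p)
    (fun x h => β x (η ^ (p ^ j) * h) + β (η ^ (p ^ j) * h) x)
    (fun x x' h => by simp only [map_add, LinearMap.add_apply]; ring)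
    (fun c x h => by simp only [map_smul, LinearMap.smul_apply, smul_add])
    (fun x h h' => by simp only [mul_add, map_add, LinearMap.add_apply]; ring)
    (fun c x h => by
      simp only [mul_smul_comm, map_smul, LinearMap.smul_apply, smul_add])) _ ?_
  rintro h ⟨hh, hhV⟩ h0
  simp only [LinearMap.mk₂_apply] at h0
  refine mem_O.2 ⟨hhV, fun w hw => ?_⟩
  rw [mu_apply]
  obtain ⟨w', hw', δ, hδ, rfl⟩ := Submodule.mem_sup.1 (hD3 hw)
  have h2 := h0 δ hδ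
  obtain ⟨hw1, hw2⟩ := hw'
  have hO := H_le_O (β := β) (V := V) i hh
  have h3 : β w' (η ^ (p ^ j) * h) = 0 := by
    have h4 := (la_orth β V i hw1 hO).1
    rw [mu_apply, hβ, pb_adj] at h4
    exact h4
  have h4 : β (η ^ (p ^ j) * h) w' = 0 := by
    have h5 := (la_orth β V i hw2 hO).2
    rw [mu_apply] at h5
    rw [hβ, pb_adj]
    exact h5
  simp only [map_add, LinearMap.add_apply]
  rw [h3, h4]
  linear_combination h2

/-- Step C. -/
lemma ap_pr (j i : ℕ) (b b' : F[X])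
    (hb' : eta (p ^ j) b' ≠ 0) (hΔ : eta (p ^ j) b * (eta (p ^ j) b' ^ (p ^ j)) ^ (p ^ j) -
      eta (p ^ j) b' * (eta (p ^ j) b ^ (p ^ j)) ^ (p ^ j) ≠ 0) : ∃ C : ℕ,
    ∀ (l : F[X] →ₗ[ZMod p] ZMod p) (d : ℕ) (P : Submodule (ZMod p) F[X]),
    P ≤ H (bet j l) (Vd p F d) →
    (∀ h ∈ P, ∃ h' ∈ H (bet j l) (Vd p F d), eta (p ^ j) b ^ (p ^ j) * h +
      eta (p ^ j) b' ^ (p ^ j) * h' ∈ A (bet j l) (Vd p F d) i) →
    Ap C P (A (bet j l) (Vd p F d) (i + 1) ⊓ H (bet j l) (Vd p F d)) := by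
  set η := eta (p ^ j) b with hη
  set η' := eta (p ^ j) b' with hη'
  set Δ := η * (η' ^ (p ^ j)) ^ (p ^ j) - η' * (η ^ (p ^ j)) ^ (p ^ j) with hΔd
  set c1 := ((η' ^ (p ^ j)) ^ (p ^ j)) ^ (p ^ j) with hc1
  set c2 := η' ^ (p ^ j) with hc2
  obtain ⟨C1, hC1⟩ := st (p := p) j i c1 (pow_ne_zero _ (pow_ne_zero _ (pow_ne_zero _ hb')))
  obtain ⟨C2, hC2⟩ := st (p := p) j i c2 (pow_ne_zero _ hb')
  obtain ⟨C3, hC3⟩ := st (p := p) j i (Δ ^ (p ^ j)) (pow_ne_zero _ hΔ)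
  set m := η'.natDegree + ((η ^ (p ^ j)) ^ (p ^ j) * η').natDegree +
    ((η' ^ (p ^ j)) ^ (p ^ j) * η').natDegree + Δ.natDegree with hm
  refine ⟨C1 + C2 + C3 + finrank (ZMod p) F * m, fun l d P hPH hP => ?_⟩
  set β := bet j l with hβ
  set V := Vd p F d with hV
  set W := A β V i with hW
  set V2 := Vd p F (d - m) with hV2
  have hfinV : FiniteDimensional (ZMod p) V := pb_fin d
  have hWV : W ≤ V := la_le β V i
  have hfinW : FiniteDimensional (ZMod p) W := Submodule.finiteDimensional_of_le hWV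
  have hV2V : V2 ≤ V := pb_mono (Nat.sub_le _ _)
  have hmul : ∀ c : F[X], c.natDegree ≤ m → ∀ v ∈ V2, c * v ∈ V := fun c hc v hv => pb_mul hc hv
  -- (a)
  have ha : P ≤ (W.map (mu c1) ⊔ W.map (mu c2) ⊔ LinearMap.ker (aL β V2)).comap
      (mu (Δ ^ (p ^ j))) := by
    intro h hh
    obtain ⟨h', hh', hy⟩ := hP h hh
    set y := η ^ (p ^ j) * h + η' ^ (p ^ j) * h' with hyd
    have hy1 : y ∈ A β V (i + 1) := la_mono β V i hy
    obtain ⟨-, x2, hx2, hx2y⟩ := hy1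
    have hx2v : ∀ v ∈ V, β x2 v = β v y := fun v hv => LinearMap.congr_fun hx2y ⟨v, hv⟩
    have hhH := mem_H.1 (hPH hh)
    have hh'H := mem_H.1 hh'
    have key : ∀ v ∈ V2, β (Δ ^ (p ^ j) * h) v = β (c1 * y + c2 * x2) v := by
      intro v hv
      have e1 : ∀ v, β y v = β h (η * v) + β h' (η' * v) := by
        intro v
        rw [hyd, map_add, LinearMap.add_apply, hβ, pb_adj, pb_adj]
      have e2 : ∀ v ∈ V, (η ^ (p ^ j)) ^ (p ^ j) * v ∈ V → (η' ^ (p ^ j)) ^ (p ^ j) * v ∈ V →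
          β x2 v = - β h ((η ^ (p ^ j)) ^ (p ^ j) * v) - β h' ((η' ^ (p ^ j)) ^ (p ^ j) * v) := by
        intro v hv h1 h2
        rw [hx2v v hv, hyd, map_add]
        have h3 : β v (η ^ (p ^ j) * h) = β ((η ^ (p ^ j)) ^ (p ^ j) * v) h := (pb_adj j l _ _ _).symm
        have h4 : β v (η' ^ (p ^ j) * h') = β ((η' ^ (p ^ j)) ^ (p ^ j) * v) h' :=
          (pb_adj j l _ _ _).symm
        have h5 := hhH.2 _ h1
        have h6 := hh'H.2 _ h2
        rw [h3, h4]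
        linear_combination h5 + h6
      have h1 : η' * v ∈ V := hmul _ (by omega) v hv
      have h2 : (η ^ (p ^ j)) ^ (p ^ j) * (η' * v) ∈ V := by
        rw [← mul_assoc]
        exact hmul _ (by omega) v hv
      have h3 : (η' ^ (p ^ j)) ^ (p ^ j) * (η' * v) ∈ V := by
        rw [← mul_assoc]
        exact hmul _ (by omega) v hv
      have h4 := e2 (η' * v) h1 h2 h3
      have h5 := e1 ((η' ^ (p ^ j)) ^ (p ^ j) * v)
      have h6 : β (c1 * y) v = β y ((η' ^ (p ^ j)) ^ (p ^ j) * v) := pb_adj j l _ _ _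
      have h7 : β (c2 * x2) v = β x2 (η' * v) := pb_adj j l _ _ _
      have h8 : β (Δ ^ (p ^ j) * h) v = β h (Δ * v) := pb_adj j l _ _ _
      rw [h8, map_add, LinearMap.add_apply, h6, h7, h4, h5]
      have h9 : Δ * v = η * ((η' ^ (p ^ j)) ^ (p ^ j) * v) -
          (η ^ (p ^ j)) ^ (p ^ j) * (η' * v) := by
        rw [hΔd]
        ring
      have h10 : η' * ((η' ^ (p ^ j)) ^ (p ^ j) * v) = (η' ^ (p ^ j)) ^ (p ^ j) * (η' * v) := by
        ring
      rw [h9, map_sub, h10]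
      ring
    rw [Submodule.mem_comap, mu_apply]
    have h1 : Δ ^ (p ^ j) * h = (c1 * y + c2 * x2) + (Δ ^ (p ^ j) * h - (c1 * y + c2 * x2)) := by
      ring
    rw [h1]
    refine Submodule.add_mem_sup (Submodule.add_mem_sup ⟨y, hy, rfl⟩ ⟨x2, hx2, rfl⟩) ?_
    rw [LinearMap.mem_ker]
    ext ⟨v, hv⟩
    change β (Δ ^ (p ^ j) * h - (c1 * y + c2 * x2)) v = 0
    rw [map_sub, LinearMap.sub_apply, key v hv, sub_self]
  -- (b)
  have hW' : Ap C3 W (W.map (mu (Δ ^ (p ^ j)))) :=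
    ap_symm_of_inj _ (pb_inj (pow_ne_zero _ hΔ)) (hC3 l d)
  have hmapW : ∀ {c : F[X]} {C : ℕ}, Ap C W (W.comap (mu c)) → Ap C (W.map (mu c)) W := by
    intro c C h
    exact ap_mono (ap_map h (mu c)) le_rfl le_rfl (Submodule.map_comap_le _ _)
  have hb1 : Ap (C1 + C2) (W.map (mu c1) ⊔ W.map (mu c2)) W :=
    ap_sup (hmapW (hC1 l d)) (hmapW (hC2 l d))
  have hb2 : Ap (C1 + C2 + C3) (W.map (mu c1) ⊔ W.map (mu c2) ⊔ LinearMap.ker (aL β V2))
      (W.map (mu (Δ ^ (p ^ j))) ⊔ LinearMap.ker (aL β V2)) := by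
    have h1 := ap_mono (ap_trans hb1 hW') le_rfl le_rfl
      (le_sup_left : _ ≤ W.map (mu (Δ ^ (p ^ j))) ⊔ LinearMap.ker (aL β V2))
    have h2 := ap_sup h1 (ap_le (C := 0) (le_sup_right : LinearMap.ker (aL β V2) ≤
      W.map (mu (Δ ^ (p ^ j))) ⊔ LinearMap.ker (aL β V2)))
    rwa [add_zero] at h2
  -- (c)
  have hc : (W.map (mu (Δ ^ (p ^ j))) ⊔ LinearMap.ker (aL β V2)).comap (mu (Δ ^ (p ^ j))) ≤
      W ⊔ (LinearMap.ker (aL β V2)).comap (mu (Δ ^ (p ^ j))) := by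
    intro h hh
    rw [Submodule.mem_comap] at hh
    obtain ⟨_, ⟨w, hw, rfl⟩, k, hk, hwk⟩ := Submodule.mem_sup.1 hh
    have h1 : h = w + (h - w) := by ring
    rw [h1]
    refine Submodule.add_mem_sup hw ?_
    rw [Submodule.mem_comap, map_sub, ← hwk, add_sub_cancel_left]
    exact hk
  -- (d)
  have hd1 : Ap (finrank (ZMod p) F * m) V (V2.map (mu Δ)) := by
    refine ap_of_finrank ?_
    have h1 : V2.map (mu Δ) ≤ V := by
      rintro _ ⟨v, hv, rfl⟩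
      exact hmul _ (by omega) v hv
    have h2 : (V ⊓ V2.map (mu Δ) : Submodule _ _) = V2.map (mu Δ) := inf_eq_right.2 h1
    rw [h2, ← (Submodule.equivMapOfInjective (mu (p := p) Δ) (pb_inj hΔ) V2).finrank_eq]
    have hfin2 : FiniteDimensional (ZMod p) V2 := pb_fin _
    exact ap_finrank (pb_ap d m)
  have hd : Ap (finrank (ZMod p) F * m) ((LinearMap.ker (aL β V2)).comap (mu (Δ ^ (p ^ j))))
      (LinearMap.ker (aL β V)) := by
    obtain ⟨D, hD1, hD2, hD3⟩ := hd1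
    refine ap_orth _ D hD2 β.flip _ ?_
    intro h hh h0
    rw [LinearMap.mem_ker]
    ext ⟨v, hv⟩
    obtain ⟨_, ⟨v', hv', rfl⟩, δ, hδ, rfl⟩ := Submodule.mem_sup.1 (hD3 hv)
    change β h (mu Δ v' + δ) = 0
    have h1 := h0 δ hδ
    rw [LinearMap.flip_apply] at h1
    rw [Submodule.mem_comap, LinearMap.mem_ker] at hh
    have h2 : β (Δ ^ (p ^ j) * h) v' = 0 := LinearMap.congr_fun hh ⟨v', hv'⟩
    have h3 : β (Δ ^ (p ^ j) * h) v' = β h (Δ * v') := pb_adj j l _ _ _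
    rw [map_add, h1, add_zero, mu_apply, ← h3, h2]
  -- (e)
  have he1 : Ap (C1 + C2 + C3 + finrank (ZMod p) F * m) P (W ⊔ LinearMap.ker (aL β V)) := by
    have h1 := ap_comap hb2 (mu (Δ ^ (p ^ j)))
    have h2 := ap_mono h1 le_rfl ha hc
    refine ap_trans h2 ?_
    have h3 := ap_sup (ap_le (C := 0) (le_sup_left : W ≤ W ⊔ LinearMap.ker (aL β V)))
      (ap_mono hd le_rfl le_rfl (le_sup_right : _ ≤ W ⊔ LinearMap.ker (aL β V)))
    rwa [zero_add] at h3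
  have he2 := ap_inf he1 (ap_le (C := 0) hPH)
  rw [add_zero] at he2
  refine ap_mono he2 le_rfl le_rfl ?_
  rintro h ⟨h1, h2⟩
  refine ⟨?_, h2⟩
  obtain ⟨w, hw, k, hk, rfl⟩ := Submodule.mem_sup.1 h1
  refine ⟨(mem_H.1 h2).1, -w, Submodule.neg_mem _ hw, ?_⟩
  ext ⟨v, hv⟩
  change β (-w) v = β v (w + k)
  have h3 := (mem_H.1 h2).2 v hv
  rw [LinearMap.mem_ker] at hk
  have h4 : β k v = 0 := LinearMap.congr_fun hk ⟨v, hv⟩
  rw [map_add, LinearMap.add_apply, h4, add_zero] at h3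
  rw [map_neg, LinearMap.neg_apply]
  linear_combination -h3

lemma eta_natDegree (P : ℕ) (hP : 2 ≤ P) (n : ℕ) (hn : 0 < n) :
    (eta P (X ^ n : F[X])).natDegree = n * P ^ 2 := by
  unfold eta
  have h1 : (X ^ n : F[X]).natDegree < ((X ^ n : F[X]) ^ (P ^ 2)).natDegree := by
    rw [← pow_mul, natDegree_X_pow, natDegree_X_pow]
    have h2 : 4 ≤ P ^ 2 := by nlinarith
    nlinarith
  rw [natDegree_sub_eq_right_of_natDegree_lt h1, ← pow_mul, natDegree_X_pow]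

lemma eta_ne (P : ℕ) (hP : 2 ≤ P) (n : ℕ) (hn : 0 < n) : eta P (X ^ n : F[X]) ≠ 0 := by
  intro h
  have h1 := eta_natDegree (F := F) P hP n hn
  rw [h, natDegree_zero] at h1
  have h2 : 0 < n * P ^ 2 := by positivity
  omega

lemma delta_ne (P : ℕ) (hP : 2 ≤ P) (n n' : ℕ) (hn : 0 < n) (hn' : 0 < n') (hne : n ≠ n') :
    eta P (X ^ n : F[X]) * (eta P (X ^ n' : F[X]) ^ P) ^ P -
      eta P (X ^ n' : F[X]) * (eta P (X ^ n : F[X]) ^ P) ^ P ≠ 0 := by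
  intro h
  rw [sub_eq_zero] at h
  have h1 := congrArg natDegree h
  rw [natDegree_mul (eta_ne P hP n hn) (pow_ne_zero _ (pow_ne_zero _ (eta_ne P hP n' hn'))),
    natDegree_mul (eta_ne P hP n' hn') (pow_ne_zero _ (pow_ne_zero _ (eta_ne P hP n hn))),
    natDegree_pow, natDegree_pow, natDegree_pow, natDegree_pow, eta_natDegree P hP n hn,
    eta_natDegree P hP n' hn'] at h1
  have h2 : 4 ≤ P ^ 2 := by nlinarith
  have h3 : (n : ℤ) * (P ^ 2 - P ^ 4) = n' * (P ^ 2 - P ^ 4) := by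
    have h4 : ((n * P ^ 2 + P * (P * (n' * P ^ 2)) : ℕ) : ℤ) =
      ((n' * P ^ 2 + P * (P * (n * P ^ 2)) : ℕ) : ℤ) := by rw [h1]
    push_cast at h4
    linear_combination h4
  have h5 : ((P : ℤ) ^ 2 - P ^ 4) ≠ 0 := by
    have h6 : (4 : ℤ) ≤ (P : ℤ) ^ 2 := by exact_mod_cast h2
    nlinarith
  have h6 := mul_right_cancel₀ h5 h3
  exact hne (by exact_mod_cast h6)

theorem main (j : ℕ) (hj : 1 ≤ j) (i : ℕ) : ∃ C : ℕ, ∀ (l : F[X] →ₗ[ZMod p] ZMod p) (d : ℕ),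
    3 * finrank (ZMod p) (H (bet j l) (Vd p F d)) +
      2 * finrank (ZMod p) (A (bet j l) (Vd p F d) i) ≤
    finrank (ZMod p) (Vd p F d) +
      finrank (ZMod p) (A (bet j l) (Vd p F d) i ⊓ H (bet j l) (Vd p F d) : Submodule _ _) +
      3 * finrank (ZMod p) (A (bet j l) (Vd p F d) (i + 1) ⊓ H (bet j l) (Vd p F d) :
        Submodule _ _) + C := by
  have hP : 2 ≤ p ^ j := by
    calc 2 ≤ p := (Fact.out : p.Prime).two_le
      _ = p ^ 1 := (pow_one p).symm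
      _ ≤ p ^ j := Nat.pow_le_pow_right (Fact.out : p.Prime).pos hj
  set b1 : F[X] := X ^ 1 with hb1
  set b2 : F[X] := X ^ 2 with hb2
  obtain ⟨C1, hC1⟩ := ap_H (p := p) j i b1 (eta_ne _ hP 1 (by norm_num))
  obtain ⟨C2, hC2⟩ := ap_H (p := p) j i b2 (eta_ne _ hP 2 (by norm_num))
  obtain ⟨C3, hC3⟩ := ap_pr (p := p) j i b1 b2 (eta_ne _ hP 2 (by norm_num))
    (delta_ne _ hP 1 2 (by norm_num) (by norm_num) (by norm_num))
  obtain ⟨C4, hC4⟩ := ap_pr (p := p) j i b2 b1 (eta_ne _ hP 1 (by norm_num))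
    (delta_ne _ hP 2 1 (by norm_num) (by norm_num) (by norm_num))
  set w1 := b1 ^ ((p ^ j) ^ 2) with hw1
  set w2 := b2 ^ ((p ^ j) ^ 2) with hw2
  set e := finrank (ZMod p) F with he
  set C0 := C1 + C2 + (e * w1.natDegree + e * (w1 ^ (p ^ j)).natDegree) +
    (e * w2.natDegree + e * (w2 ^ (p ^ j)).natDegree) with hC0
  refine ⟨3 * C0 + C3 + C4, fun l d => ?_⟩
  set β := bet j l with hβ
  set V := Vd p F d with hV
  set W := A β V i with hW
  set HH := H β V with hHH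
  have hfinV : FiniteDimensional (ZMod p) V := pb_fin d
  have hWV : W ≤ V := la_le β V i
  have hHV : HH ≤ V := fun x hx => (mem_H.1 hx).1
  have hfinW : FiniteDimensional (ZMod p) W := Submodule.finiteDimensional_of_le hWV
  have hfinH : FiniteDimensional (ZMod p) HH := Submodule.finiteDimensional_of_le hHV
  set ψ1 := eta (p ^ j) b1 ^ (p ^ j) with hψ1
  set ψ2 := eta (p ^ j) b2 ^ (p ^ j) with hψ2
  set OO := O β V W with hOO
  set Hs := HH ⊓ ((OO.comap (mu ψ1) ⊓ OO.comap (mu ψ2)) ⊓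
    (V.comap (mu w1) ⊓ V.comap (mu (w1 ^ (p ^ j)))) ⊓
    (V.comap (mu w2) ⊓ V.comap (mu (w2 ^ (p ^ j))))) with hHs
  have hHsH : Hs ≤ HH := inf_le_left
  have hHsV : Hs ≤ V := hHsH.trans hHV
  have hfinHs : FiniteDimensional (ZMod p) Hs := Submodule.finiteDimensional_of_le hHsV
  have hapV : ∀ c : F[X], Ap (e * c.natDegree) HH (V.comap (mu c)) := fun c =>
    ap_mono (ap_V (p := p) c d) le_rfl hHV le_rfl
  have hap : Ap C0 HH Hs := by
    have h1 := ap_inf (ap_inf (ap_inf (hC1 l d) (hC2 l d)) (ap_inf (hapV w1) (hapV (w1 ^ (p ^ j)))))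
      (ap_inf (hapV w2) (hapV (w2 ^ (p ^ j))))
    have h2 := ap_inf (ap_le (C := 0) (le_refl HH)) h1
    rw [zero_add] at h2
    exact h2
  have hfr : finrank (ZMod p) HH ≤ finrank (ZMod p) Hs + C0 := ap_finrank hap
  have hm1 : ∀ h ∈ Hs, ψ1 * h ∈ OO := fun h hh => hh.2.1.1.1
  have hm2 : ∀ h ∈ Hs, ψ2 * h ∈ OO := fun h hh => hh.2.1.1.2
  -- the kernels
  set P1 := Hs ⊓ (W ⊔ Hs.map (mu ψ2)).comap (mu ψ1) with hP1
  set P2 := Hs ⊓ (W ⊔ Hs.map (mu ψ1)).comap (mu ψ2) with hP2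
  have hfinP1 : FiniteDimensional (ZMod p) P1 :=
    Submodule.finiteDimensional_of_le (inf_le_left.trans hHsV)
  have hfinP2 : FiniteDimensional (ZMod p) P2 :=
    Submodule.finiteDimensional_of_le (inf_le_left.trans hHsV)
  have hfinA : FiniteDimensional (ZMod p) (A β V (i + 1) ⊓ HH : Submodule _ _) :=
    Submodule.finiteDimensional_of_le (inf_le_right.trans hHV)
  have hP1f : finrank (ZMod p) P1 ≤ finrank (ZMod p) (A β V (i + 1) ⊓ HH : Submodule _ _) + C3 := by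
    refine ap_finrank (hC3 l d P1 (inf_le_left.trans hHsH) ?_)
    rintro h ⟨hh, h1⟩
    change ψ1 * h ∈ W ⊔ Hs.map (mu ψ2) at h1
    obtain ⟨w, hw, _, ⟨h', hh', rfl⟩, h2⟩ := Submodule.mem_sup.1 h1
    refine ⟨-h', Submodule.neg_mem _ (hHsH hh'), ?_⟩
    have h3 : ψ1 * h + ψ2 * -h' = w := by
      rw [← h2, mu_apply]
      ring
    rw [h3]
    exact hw
  have hP2f : finrank (ZMod p) P2 ≤ finrank (ZMod p) (A β V (i + 1) ⊓ HH : Submodule _ _) + C4 := by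
    refine ap_finrank (hC4 l d P2 (inf_le_left.trans hHsH) ?_)
    rintro h ⟨hh, h1⟩
    change ψ2 * h ∈ W ⊔ Hs.map (mu ψ1) at h1
    obtain ⟨w, hw, _, ⟨h', hh', rfl⟩, h2⟩ := Submodule.mem_sup.1 h1
    refine ⟨-h', Submodule.neg_mem _ (hHsH hh'), ?_⟩
    have h3 : ψ2 * h + ψ1 * -h' = w := by
      rw [← h2, mu_apply]
      ring
    rw [h3]
    exact hw
  have hsum := la_sum W Hs (mu ψ1) (mu ψ2) P1 P2 (by
    intro x hx y hy hxy
    rw [mu_apply, mu_apply] at hxy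
    constructor
    · refine ⟨hx, ?_⟩
      change ψ1 * x ∈ W ⊔ Hs.map (mu ψ2)
      have h1 : ψ1 * x = (ψ1 * x + ψ2 * y) + mu (p := p) ψ2 (-y) := by
        rw [mu_apply]
        ring
      rw [h1]
      exact Submodule.add_mem_sup hxy ⟨-y, Submodule.neg_mem _ hy, rfl⟩
    · refine ⟨hy, ?_⟩
      change ψ2 * y ∈ W ⊔ Hs.map (mu ψ1)
      have h1 : ψ2 * y = (ψ1 * x + ψ2 * y) + mu (p := p) ψ1 (-x) := by
        rw [mu_apply]
        ring
      rw [h1]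
      exact Submodule.add_mem_sup hxy ⟨-x, Submodule.neg_mem _ hx, rfl⟩)
  have hcount := la_count β V i Hs (W ⊔ Hs.map (mu ψ1) ⊔ Hs.map (mu ψ2)) hHsH (by
    refine sup_le (sup_le (la_iso β V i) ?_) ?_
    · rintro _ ⟨h, hh, rfl⟩
      exact hm1 h hh
    · rintro _ ⟨h, hh, rfl⟩
      exact hm2 h hh) (by
    intro h hh x hx
    obtain ⟨x', hx', _, ⟨h2, hh2, rfl⟩, rfl⟩ := Submodule.mem_sup.1 hx
    obtain ⟨w, hw, _, ⟨h1, hh1, rfl⟩, rfl⟩ := Submodule.mem_sup.1 hx'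
    rw [map_add, map_add, (la_orth β V i hw (H_le_O i (hHsH hh))).2, mu_apply, mu_apply,
      pairing j l V b1 (hHsH hh) (hHsH hh1) hh.2.1.2.1 hh1.2.1.2.2,
      pairing j l V b2 (hHsH hh) (hHsH hh2) hh.2.2.1 hh2.2.2.2, add_zero, add_zero])
  have hdim := la_dim β V i
  change finrank (ZMod p) OO + finrank (ZMod p) W = finrank (ZMod p) V +
    finrank (ZMod p) (W ⊓ HH : Submodule _ _) at hdim
  change finrank (ZMod p) (W ⊔ Hs.map (mu ψ1) ⊔ Hs.map (mu ψ2) : Submodule _ _) +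
    finrank (ZMod p) Hs ≤ finrank (ZMod p) OO +
      finrank (ZMod p) (A β V (i + 1) ⊓ HH : Submodule _ _) at hcount
  omega

end Pool.Agent.Helper88.MW
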