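import Pool.Agent.Helper88.MW.Defs

/-!
# Statements of the parts (swarm MW)
-/

set_option autoImplicit false

namespace Pool.Agent.Helper88.MW.Spec

open Polynomial Module Pool.Agent.Helper88.MW

section lin

variable {K : Type} [Field K] {E : Type} [AddCommGroup E] [Module K E] {E' : Type}
  [AddCommGroup E'] [Module K E']

/-! ## AP: the calculus of `Ap` -/

theorem ap_le {C : ℕ} {X Y : Submodule K E} (h : X ≤ Y) : Ap C X Y := sorry

theorem ap_mono {C C' : ℕ} {X X' Y Y' : Submodule K E} (h : Ap C X Y) (hC : C ≤ C') (hX : X' ≤ X)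
    (hY : Y ≤ Y') : Ap C' X' Y' := sorry

theorem ap_trans {C C' : ℕ} {X Y Z : Submodule K E} (h : Ap C X Y) (h' : Ap C' Y Z) :
    Ap (C + C') X Z := sorry

theorem ap_map {C : ℕ} {X Y : Submodule K E} (h : Ap C X Y) (f : E →ₗ[K] E') :
    Ap C (X.map f) (Y.map f) := sorry

theorem ap_comap {C : ℕ} {X Y : Submodule K E'} (h : Ap C X Y) (f : E →ₗ[K] E') :
    Ap C (X.comap f) (Y.comap f) := sorry

theorem ap_inf {C C' : ℕ} {X Y Y' : Submodule K E} (h : Ap C X Y) (h' : Ap C' X Y') :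
    Ap (C + C') X (Y ⊓ Y') := sorry

theorem ap_sup {C C' : ℕ} {X X' Y : Submodule K E} (h : Ap C X Y) (h' : Ap C' X' Y) :
    Ap (C + C') (X ⊔ X') Y := sorry

/-- `f⁻¹(f(Y))` -/
theorem ap_comap_map {C : ℕ} (f : E →ₗ[K] E') [FiniteDimensional K (LinearMap.ker f)]
    (hC : finrank K (LinearMap.ker f) ≤ C) (Y : Submodule K E) :
    Ap C ((Y.map f).comap f) Y := sorry

theorem ap_finrank {C : ℕ} {X Y : Submodule K E} [FiniteDimensional K Y] (h : Ap C X Y) :
    finrank K X ≤ finrank K Y + C := sorry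

theorem ap_of_finrank {C : ℕ} {X Y : Submodule K E} [FiniteDimensional K X]
    (h : finrank K X ≤ finrank K (X ⊓ Y : Submodule K E) + C) : Ap C X Y := sorry

theorem finrank_of_ap {C : ℕ} {X Y : Submodule K E} [FiniteDimensional K X] (h : Ap C X Y) :
    finrank K X ≤ finrank K (X ⊓ Y : Submodule K E) + C := sorry

/-- if `m W ⊆ W` up to `C`, `m` injective, then `W ⊆ m W` up to `C`. -/
theorem ap_symm_of_inj {C : ℕ} {W : Submodule K E} [FiniteDimensional K W] (m : E →ₗ[K] E)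
    (hm : Function.Injective m) (h : Ap C W (W.comap m)) : Ap C W (W.map m) := sorry

/-- orthogonality to a subspace of dimension `≤ C` costs `C` dimensions -/
theorem ap_orth {C : ℕ} (X : Submodule K E) (D : Submodule K E') [FiniteDimensional K D]
    (hD : finrank K D ≤ C) (γ : E' →ₗ[K] E →ₗ[K] K) (Y : Submodule K E)
    (hY : ∀ h ∈ X, (∀ x ∈ D, γ x h = 0) → h ∈ Y) : Ap C X Y := sorry

/-! ## LA: exact linear algebra -/

variable (β : E →ₗ[K] E →ₗ[K] K) (V : Submodule K E)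

theorem la_mono (i : ℕ) : A β V i ≤ A β V (i + 1) := sorry

theorem la_le (i : ℕ) : A β V i ≤ V := sorry

theorem la_map (i : ℕ) :
    (A β V i).map (aL β V + aR β V) = (A β V i).map (aL β V) := sorry

theorem la_finrank [FiniteDimensional K V] (i : ℕ) :
    finrank K (A β V i ⊓ H β V : Submodule K E) = finrank K (A β V i ⊓ Z β V : Submodule K E) :=
  sorry

theorem la_orth (i : ℕ) {v w : E} (hw : w ∈ A β V i) (hv : v ∈ O β V (A β V i)) :
    β w v = 0 ∧ β v w = 0 := sorry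

theorem la_iso (i : ℕ) : A β V i ≤ O β V (A β V i) := sorry

theorem la_dim [FiniteDimensional K V] (i : ℕ) :
    finrank K (O β V (A β V i)) + finrank K (A β V i) =
      finrank K V + finrank K (A β V i ⊓ H β V : Submodule K E) := sorry

theorem la_dual [FiniteDimensional K V] (i : ℕ) {h : E} (hh : h ∈ H β V)
    (h0 : ∀ v ∈ O β V (A β V i), β h v = 0) : h ∈ A β V (i + 1) := sorry

/-- The final dimension count: `X ⊆ O`, `β(H', X) = 0`. -/
theorem la_count [FiniteDimensional K V] (i : ℕ) (H' X : Submodule K E) (hH : H' ≤ H β V)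
    (hX : X ≤ O β V (A β V i)) (h0 : ∀ h ∈ H', ∀ x ∈ X, β h x = 0) :
    finrank K X + finrank K H' ≤
      finrank K (O β V (A β V i)) + finrank K (A β V (i + 1) ⊓ H β V : Submodule K E) := sorry

/-- The dimension of a sum of two images modulo `W`. -/
theorem la_sum (W H' : Submodule K E) [FiniteDimensional K W] [FiniteDimensional K H']
    (f g : E →ₗ[K] E) (P1 P2 : Submodule K E) [FiniteDimensional K P1] [FiniteDimensional K P2]
    (h1 : ∀ x ∈ H', ∀ y ∈ H', f x + g y ∈ W → x ∈ P1 ∧ y ∈ P2) :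
    finrank K W + 2 * finrank K H' ≤
      finrank K (W ⊔ H'.map f ⊔ H'.map g : Submodule K E) + finrank K P1 + finrank K P2 := sorry

end lin

section poly

variable {p : ℕ} [Fact p.Prime] {F : Type} [Field F] [Fintype F] [Algebra (ZMod p) F]

/-! ## PB: basic facts on polynomials -/

theorem pb_adj (j : ℕ) (l : F[X] →ₗ[ZMod p] ZMod p) (c x y : F[X]) :
    bet j l (c ^ (p ^ j) * x) y = bet j l x (c * y) := sorry

theorem pb_fin (d : ℕ) : FiniteDimensional (ZMod p) (Vd p F d) := sorry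

theorem pb_finrank (d : ℕ) : finrank (ZMod p) (Vd p F d) = finrank (ZMod p) F * d := sorry

theorem pb_mono {d d' : ℕ} (h : d ≤ d') : Vd p F d ≤ Vd p F d' := sorry

theorem pb_mul {c x : F[X]} {d m : ℕ} (hc : c.natDegree ≤ m) (hx : x ∈ Vd p F (d - m)) :
    c * x ∈ Vd p F d := sorry

theorem pb_ap (d m : ℕ) : Ap (finrank (ZMod p) F * m) (Vd p F d) (Vd p F (d - m)) := sorry

theorem pb_inj {c : F[X]} (hc : c ≠ 0) : Function.Injective (mu (p := p) c) := sorry

/-! ## ST: stability -/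

theorem st (j : ℕ) (i : ℕ) (c : F[X]) (hc : c ≠ 0) : ∃ C : ℕ, ∀ (l : F[X] →ₗ[ZMod p] ZMod p)
    (d : ℕ), Ap C (A (bet j l) (Vd p F d) i) ((A (bet j l) (Vd p F d) i).comap (mu c)) := sorry

/-! ## GR: growth -/

theorem gr (P : ℕ) (hP : 2 ≤ P) (Y : Submodule (ZMod p) F[X]) [FiniteDimensional (ZMod p) Y]
    (h : ∀ x : F[X], (∀ i < P, X ^ i * x ∈ Y) → x = 0) :
    P * finrank (ZMod p) Y ≤ (P - 1) * finrank (ZMod p) (Y ⊔ Y.map (mu X) : Submodule _ _) := sorry

/-! ## STR: strings in the left kernel -/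

theorem str (j : ℕ) (hj : 1 ≤ j) (l : F[X] →ₗ[ZMod p] ZMod p) (d : ℕ) (hM : Mi l d) (x : F[X])
    (h : ∀ i < p ^ j, X ^ i * x ∈ Z (bet j l) (Vd p F d)) : x = 0 := sorry

/-- growth of the left kernel inside `A i` -/
theorem zg (j : ℕ) (hj : 1 ≤ j) (i : ℕ) : ∃ C : ℕ, ∀ (l : F[X] →ₗ[ZMod p] ZMod p) (d : ℕ),
    Mi l d → p ^ j * finrank (ZMod p) (A (bet j l) (Vd p F d) i ⊓ H (bet j l) (Vd p F d) :
        Submodule _ _) ≤
      (p ^ j - 1) * finrank (ZMod p) (A (bet j l) (Vd p F d) i) + C := sorry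

/-! ## MAIN -/

theorem main (j : ℕ) (hj : 1 ≤ j) (i : ℕ) : ∃ C : ℕ, ∀ (l : F[X] →ₗ[ZMod p] ZMod p) (d : ℕ),
    3 * finrank (ZMod p) (H (bet j l) (Vd p F d)) +
      2 * finrank (ZMod p) (A (bet j l) (Vd p F d) i) ≤
    finrank (ZMod p) (Vd p F d) +
      finrank (ZMod p) (A (bet j l) (Vd p F d) i ⊓ H (bet j l) (Vd p F d) : Submodule _ _) +
      3 * finrank (ZMod p) (A (bet j l) (Vd p F d) (i + 1) ⊓ H (bet j l) (Vd p F d) :
        Submodule _ _) + C := sorry

/-! ## FIN: the corank -/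

theorem fin (j : ℕ) (hj : 1 ≤ j) (ε : ℝ) (hε : 0 < ε) : ∃ C : ℝ,
    ∀ (l : F[X] →ₗ[ZMod p] ZMod p) (d : ℕ), Mi l d →
      (finrank (ZMod p) (H (bet j l) (Vd p F d)) : ℝ) ≤
        (((p : ℝ) ^ j - 1) / ((p : ℝ) ^ j + 1) + ε) * (finrank (ZMod p) F * d) + C := sorry

/-! ## EXP: exponential sums -/

/-- the polynomial with the given coefficients -/
noncomputable def pol {n : ℕ} (c : Fin n → F) : F[X] := ∑ i, C (c i) * X ^ (i : ℕ)

/-- `|S|² ≤ q^n |H|` -/
theorem exp (j n : ℕ) (l : F[X] →ₗ[ZMod p] ZMod p) (χ : F[X] →+ ZMod p) :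
    ‖∑ c : Fin n → F, ZMod.stdAddChar (l (pol c ^ (p ^ j + 1)) + χ (pol c))‖ ^ 2 ≤
      (Fintype.card F : ℝ) ^ n * (p : ℝ) ^ finrank (ZMod p) (H (bet j l) (Vd p F n)) := sorry

/-- passing to a smaller degree -/
theorem mon (j : ℕ) (l : F[X] →ₗ[ZMod p] ZMod p) {d n : ℕ} (h : d ≤ n) :
    finrank (ZMod p) (H (bet j l) (Vd p F n)) ≤
      finrank (ZMod p) (H (bet j l) (Vd p F d)) + finrank (ZMod p) F * (n - d) := sorry

end poly

section field

variable {p : ℕ} [Fact p.Prime] {F : Type} [Field F] [Fintype F] [CharP F p]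

/-- an additive character has values in the roots of unity -/
theorem chr (ψ : AddChar F ℂ) (hψ : ψ ≠ 1) : ∃ τ : F →+ ZMod p, τ ≠ 0 ∧
    ∀ x, ψ x = ZMod.stdAddChar (τ x) := sorry

/-- The embedding of the polynomials in the Laurent series in `1/T`. -/
noncomputable def emb (F : Type) [Field F] : F[X] →ₐ[F] LaurentSeries F :=
  Polynomial.aeval (HahnSeries.single (-1 : ℤ) (1 : F))

/-- rational approximation -/
theorem rat [Algebra (ZMod p) F] (τ : F →+ ZMod p) (hτ : τ ≠ 0) (α : LaurentSeries F) (a g : F[X])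
    (hg : g ≠ 0) (hag : IsCoprime a g)
    (h : ∀ m : ℤ, m < g.natDegree → (α * emb F g - emb F a).coeff m = 0)
    (l : F[X] →ₗ[ZMod p] ZMod p) (hl : ∀ f, l f = τ ((α * emb F f).coeff 1)) :
    Mi l g.natDegree := sorry

end field

end Pool.Agent.Helper88.MW.Spec
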